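import Pool.Agent.TH124.KE.Color

/-!
# A crossing lemma for graphs between two given sets of points
-/

set_option autoImplicit false

namespace Pool.Agent.X65.KL

open Finset Pool.Agent.TH124.KE

/-- some colouring has at most the expected number of monochromatic pairs -/
theorem mono {α β : Type*} [DecidableEq α] (V : Finset α) (Z : Finset β) (x y : β → α)
    (h : ∀ z ∈ Z, x z ∈ V ∧ y z ∈ V ∧ x z ≠ y z) (s : ℕ) (hs : 0 < s) :
    ∃ c : V → Fin s, s * #{z ∈ Z | ∃ i, x z ∈ cls V c i ∧ y z ∈ cls V c i} ≤ #Z := by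
  classical
  have h2 := cnt_sum V Z (fun z => {x z, y z}) 2 s (by
    intro z hz
    obtain ⟨h1, h2, h3⟩ := h z hz
    refine ⟨?_, card_pair h3⟩
    intro w hw
    rw [mem_insert, mem_singleton] at hw
    rcases hw with rfl | rfl
    · exact h1
    · exact h2)
  by_contra hcon
  push Not at hcon
  have h3 : ∀ c : V → Fin s, #{z ∈ Z | ∃ i, x z ∈ cls V c i ∧ y z ∈ cls V c i} ≤
      ∑ i : Fin s, #{z ∈ Z | ({x z, y z} : Finset α) ⊆ cls V c i} := by
    intro c
    calc #{z ∈ Z | ∃ i, x z ∈ cls V c i ∧ y z ∈ cls V c i} ≤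
          #((univ : Finset (Fin s)).biUnion fun i =>
            {z ∈ Z | ({x z, y z} : Finset α) ⊆ cls V c i}) := by
          apply card_le_card
          intro z hz
          rw [mem_filter] at hz
          obtain ⟨hz, i, h1, h2⟩ := hz
          rw [mem_biUnion]
          refine ⟨i, mem_univ _, ?_⟩
          rw [mem_filter]
          refine ⟨hz, ?_⟩
          intro w hw
          rw [mem_insert, mem_singleton] at hw
          rcases hw with rfl | rfl
          · exact h1
          · exact h2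
      _ ≤ _ := card_biUnion_le
  have h4 : ∑ _c : V → Fin s, #Z < ∑ c : V → Fin s,
      s * ∑ i : Fin s, #{z ∈ Z | ({x z, y z} : Finset α) ⊆ cls V c i} := by
    apply Finset.sum_lt_sum_of_nonempty
    · have : Nonempty (Fin s) := ⟨⟨0, hs⟩⟩
      exact univ_nonempty
    · intro c _
      exact (hcon c).trans_le (Nat.mul_le_mul_left _ (h3 c))
  rw [sum_const, card_univ, Fintype.card_fun, Fintype.card_fin, Fintype.card_coe, smul_eq_mul,
    ← mul_sum] at h4
  have h5 : s * (s ^ #V * #Z) < s * (s * ∑ c : V → Fin s,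
      ∑ i : Fin s, #{z ∈ Z | ({x z, y z} : Finset α) ⊆ cls V c i}) :=
    Nat.mul_lt_mul_of_pos_left h4 hs
  have h6 : s * (s * ∑ c : V → Fin s, ∑ i : Fin s,
      #{z ∈ Z | ({x z, y z} : Finset α) ⊆ cls V c i}) = #Z * (s * s ^ #V) := by
    rw [← h2]; ring
  rw [h6] at h5
  have h7 : s * (s ^ #V * #Z) = #Z * (s * s ^ #V) := by ring
  omega

/-- every point has a colour -/
theorem exists_cls {α : Type*} [DecidableEq α] {V : Finset α} {s : ℕ} (c : V → Fin s) {x : α}
    (hx : x ∈ V) : ∃ i, x ∈ cls V c i :=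
  ⟨c ⟨x, hx⟩, (mem_cls ⟨x, hx⟩).2 rfl⟩

theorem cls_inj {α : Type*} [DecidableEq α] {V : Finset α} {s : ℕ} (c : V → Fin s) {x : α}
    {i j : Fin s} (hi : x ∈ cls V c i) (hj : x ∈ cls V c j) : i = j := by
  have hx := cls_subset V c i hi
  have h1 := (mem_cls ⟨x, hx⟩).1 hi
  have h2 := (mem_cls ⟨x, hx⟩).1 hj
  exact h1.symm.trans h2

theorem sum_cls {α : Type*} [DecidableEq α] (V : Finset α) {s : ℕ} (c : V → Fin s) :
    ∑ i : Fin s, #(cls V c i) = #V := by
  rw [← card_biUnion]
  · congr 1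
    ext x
    rw [mem_biUnion]
    constructor
    · rintro ⟨i, _, hi⟩
      exact cls_subset V c i hi
    · intro hx
      obtain ⟨i, hi⟩ := exists_cls c hx
      exact ⟨i, mem_univ _, hi⟩
  · intro i _ j _ hij
    rw [Function.onFun, disjoint_left]
    intro x hx hx'
    exact hij (cls_inj c hx hx')

/-- **The crossing lemma** for straight-line graphs all of whose edges have their left ends in `A`
and their right ends in `B`. -/
theorem crossing_lemma₂ {V A B : Finset (ℝ × ℝ)} (hV : GP V) (hA : A ⊆ V) (hB : B ⊆ V)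
    {F : Finset Seg} (hF : ∀ e ∈ F, e.1 ∈ A ∧ e.2 ∈ B ∧ e.1.1 < e.2.1) (s t : ℕ) (hs : 0 < s)
    (ht : 0 < t) : s * t * #F ≤ 3 * (s * t) * (t * #A + s * #B) + #(crs F) := by
  classical
  have hdist : ∀ z ∈ crs F, z.1.1 ≠ z.2.1 ∧ z.1.2 ≠ z.2.2 := by
    intro z hz
    unfold crs at hz
    rw [mem_filter, mem_product] at hz
    have he := hF _ hz.1.1
    have hf := hF _ hz.1.2
    have h4 := hz.2.2.distinct he.2.2 hf.2.2
    unfold ends4 at h4
    constructor
    · intro h
      have : ({z.1.1, z.1.2, z.2.1, z.2.2} : Finset (ℝ × ℝ)) = {z.1.2, z.2.1, z.2.2} := by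
        rw [h, insert_eq_of_mem]
        simp
      have h5 : #({z.1.1, z.1.2, z.2.1, z.2.2} : Finset (ℝ × ℝ)) ≤ 3 := by
        rw [this]; exact card_le_three
      simp only at h4
      omega
    · intro h
      have : ({z.1.1, z.1.2, z.2.1, z.2.2} : Finset (ℝ × ℝ)) = {z.1.1, z.2.1, z.2.2} := by
        rw [h, insert_eq_of_mem (a := z.2.2)]
        simp
      have h5 : #({z.1.1, z.1.2, z.2.1, z.2.2} : Finset (ℝ × ℝ)) ≤ 3 := by
        rw [this]; exact card_le_three
      simp only at h4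
      omega
  have hmem : ∀ z ∈ crs F, z.1 ∈ F ∧ z.2 ∈ F := by
    intro z hz
    unfold crs at hz
    rw [mem_filter, mem_product] at hz
    exact hz.1
  obtain ⟨c, hc⟩ := mono A (crs F) (fun z => z.1.1) (fun z => z.2.1) (by
    intro z hz
    exact ⟨(hF _ (hmem z hz).1).1, (hF _ (hmem z hz).2).1, (hdist z hz).1⟩) s hs
  set Z := {z ∈ crs F | ∃ i, z.1.1 ∈ cls A c i ∧ z.2.1 ∈ cls A c i} with hZ
  have hZs : ∀ z ∈ Z, z ∈ crs F := fun z hz => (mem_filter.1 hz).1
  obtain ⟨d, hd⟩ := mono B Z (fun z => z.1.2) (fun z => z.2.2) (by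
    intro z hz
    have h1 := hZs z hz
    exact ⟨(hF _ (hmem z h1).1).2.1, (hF _ (hmem z h1).2).2.1, (hdist z h1).2⟩) t ht
  set Y := {z ∈ Z | ∃ i, z.1.2 ∈ cls B d i ∧ z.2.2 ∈ cls B d i} with hY
  have hYle : s * t * #Y ≤ #(crs F) := by
    calc s * t * #Y = s * (t * #Y) := by ring
      _ ≤ s * #Z := Nat.mul_le_mul_left _ hd
      _ ≤ _ := hc
  -- the classes of edges
  set E : Fin s → Fin t → Finset Seg := fun i j =>
    {e ∈ F | e.1 ∈ cls A c i ∧ e.2 ∈ cls B d j} with hE
  have h1 : #F ≤ ∑ i, ∑ j, #(E i j) := by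
    have : F ⊆ (univ : Finset (Fin s)).biUnion fun i =>
        (univ : Finset (Fin t)).biUnion fun j => E i j := by
      intro e he
      obtain ⟨i, hi⟩ := exists_cls c (hF e he).1
      obtain ⟨j, hj⟩ := exists_cls d (hF e he).2.1
      rw [mem_biUnion]
      refine ⟨i, mem_univ _, ?_⟩
      rw [mem_biUnion]
      refine ⟨j, mem_univ _, ?_⟩
      rw [hE]
      exact mem_filter.2 ⟨he, hi, hj⟩
    refine (card_le_card this).trans (card_biUnion_le.trans ?_)
    exact sum_le_sum fun i _ => card_biUnion_le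
  have h2 : ∀ i j, #(E i j) ≤ 3 * (#(cls A c i) + #(cls B d j)) + #(crs (E i j)) := by
    intro i j
    have h := planar_crs (hV.mono (union_subset ((cls_subset A c i).trans hA)
      ((cls_subset B d j).trans hB))) _ (E i j) rfl (by
        intro e he
        rw [hE] at he
        obtain ⟨h1, h2, h3⟩ := mem_filter.1 he
        exact ⟨mem_union_left _ h2, mem_union_right _ h3, (hF e h1).2.2⟩)
    have h3 := card_union_le (cls A c i) (cls B d j)
    omega
  have h3 : ∑ i, ∑ j, #(crs (E i j)) ≤ #Y := by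
    have hd1 : ∀ i, ∑ j, #(crs (E i j)) = #((univ : Finset (Fin t)).biUnion fun j => crs (E i j)) := by
      intro i
      rw [card_biUnion]
      intro j _ j' _ hjj
      rw [Function.onFun, disjoint_left]
      intro z hz hz'
      unfold crs at hz hz'
      rw [mem_filter, mem_product] at hz hz'
      exact hjj (cls_inj d (mem_filter.1 hz.1.1).2.2 (mem_filter.1 hz'.1.1).2.2)
    rw [sum_congr rfl fun i _ => hd1 i, ← card_biUnion]
    · apply card_le_card
      intro z hz
      rw [mem_biUnion] at hz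
      obtain ⟨i, _, hz⟩ := hz
      rw [mem_biUnion] at hz
      obtain ⟨j, _, hz⟩ := hz
      unfold crs at hz
      rw [mem_filter, mem_product] at hz
      obtain ⟨⟨h4, h5⟩, h6⟩ := hz
      rw [hE] at h4 h5
      obtain ⟨a1, a2, a3⟩ := mem_filter.1 h4
      obtain ⟨b1, b2, b3⟩ := mem_filter.1 h5
      rw [hY, mem_filter, hZ, mem_filter]
      refine ⟨⟨?_, i, a2, b2⟩, j, a3, b3⟩
      unfold crs
      rw [mem_filter, mem_product]
      exact ⟨⟨a1, b1⟩, h6⟩
    · intro i _ i' _ hii
      rw [Function.onFun, disjoint_left]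
      intro z hz hz'
      rw [mem_biUnion] at hz hz'
      obtain ⟨j, _, hz⟩ := hz
      obtain ⟨j', _, hz'⟩ := hz'
      unfold crs at hz hz'
      rw [mem_filter, mem_product] at hz hz'
      exact hii (cls_inj c (mem_filter.1 hz.1.1).2.1 (mem_filter.1 hz'.1.1).2.1)
  have h4 : ∑ i : Fin s, ∑ j : Fin t, 3 * (#(cls A c i) + #(cls B d j)) =
      3 * (t * #A + s * #B) := by
    have e1 : ∀ i : Fin s, ∑ j : Fin t, 3 * (#(cls A c i) + #(cls B d j)) =
        3 * (t * #(cls A c i) + #B) := by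
      intro i
      rw [← mul_sum, sum_add_distrib, sum_cls, sum_const, card_univ, Fintype.card_fin, smul_eq_mul]
    rw [sum_congr rfl fun i _ => e1 i, ← mul_sum, sum_add_distrib, ← mul_sum, sum_cls, sum_const,
      card_univ, Fintype.card_fin, smul_eq_mul]
  have h5 : #F ≤ 3 * (t * #A + s * #B) + #Y := by
    calc #F ≤ ∑ i, ∑ j, #(E i j) := h1
      _ ≤ ∑ i, ∑ j, (3 * (#(cls A c i) + #(cls B d j)) + #(crs (E i j))) :=
          sum_le_sum fun i _ => sum_le_sum fun j _ => h2 i j
      _ = ∑ i : Fin s, ∑ j : Fin t, 3 * (#(cls A c i) + #(cls B d j)) +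
            ∑ i, ∑ j, #(crs (E i j)) := by
          simp only [sum_add_distrib]
      _ ≤ _ := by rw [h4]; exact Nat.add_le_add_left h3 _
  calc s * t * #F ≤ s * t * (3 * (t * #A + s * #B) + #Y) := Nat.mul_le_mul_left _ h5
    _ = 3 * (s * t) * (t * #A + s * #B) + s * t * #Y := by ring
    _ ≤ _ := Nat.add_le_add_left hYle _

end Pool.Agent.X65.KL
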