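import Pool.Agent.Y344.KD.Lines
import Pool.Agent.X65.KL.Bip

/-! The number of pairs of a given set of levels between two given sets of points. -/

set_option autoImplicit false

namespace Pool.Agent.X65.KL

open Finset Pool.Agent.H189R2.Lev Pool.Agent.H189R2.Iid Pool.Agent.Y344.KD

open Pool.Agent.Results.MP_a08d0a_co.SmoothedLevel (Simple)

variable {n : ℕ} {P : Fin n → ℝ × ℝ}

open Classical in
/-- the pairs with right end in `S`, left end in `S'` and level in `W` -/
noncomputable def EL (P : Fin n → ℝ × ℝ) (S S' : Finset (Fin n)) (W : Finset ℕ) :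
    Finset (Fin n × Fin n) :=
  (T P).filter (fun q => q.1 ∈ S ∧ q.2 ∈ S' ∧ lev P q ∈ W)

theorem local_s (hP : GP P) (S S' : Finset (Fin n)) (W : Finset ℕ) {K : ℕ} (hW : ∀ k ∈ W, k ≤ K)
    (s t : ℕ) (hs : 0 < s) (ht : 0 < t) :
    ((s : ℝ) * t) * (EL P S S' W).card ≤ 3 * ((s : ℝ) * t) * (t * S'.card + s * S.card) +
      (W.card : ℝ) ^ 2 * (2 * (3 * n * (K + 1))) := by
  classical
  have inj : Function.Injective P := fun i j h => hP.1 i j (by rw [h])
  have injS : Function.Injective (toSeg P) := by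
    intro q q' h
    simp only [toSeg, Prod.mk.injEq] at h
    exact Prod.ext (inj h.2) (inj h.1)
  set F := (EL P S S' W).image (toSeg P) with hF
  have h1 := crossing_lemma₂ (ke_gp hP) (image_subset_image (subset_univ S'))
    (image_subset_image (subset_univ S)) (F := F) (by
      intro e he
      rw [hF, mem_image] at he
      obtain ⟨q, hq, rfl⟩ := he
      unfold EL at hq
      rw [mem_filter, mem_T] at hq
      exact ⟨mem_image_of_mem _ hq.2.2.1, mem_image_of_mem _ hq.2.1, hq.1⟩) s t hs ht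
  have hcF : F.card = (EL P S S' W).card := card_image_of_injective _ injS
  have hcS : (S.image P).card = S.card := card_image_of_injective _ inj
  have hcS' : (S'.image P).card = S'.card := card_image_of_injective _ inj
  rw [hcF, hcS, hcS'] at h1
  have h2 : (Pool.Agent.TH124.KE.crs F).card ≤ ((T P ×ˢ T P).filter (fun q => q.1 ≠ q.2 ∧
      lev P q.1 ∈ W ∧ lev P q.2 ∈ W ∧
      CrossP (P q.1.1) (P q.1.2) (P q.2.1) (P q.2.2))).card := by
    apply card_le_card_of_surjOn (fun q : (Fin n × Fin n) × (Fin n × Fin n) =>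
      (toSeg P q.1, toSeg P q.2))
    rintro ⟨e, f⟩ hef
    unfold Pool.Agent.TH124.KE.crs at hef
    simp only [mem_coe, mem_filter, mem_product, hF, mem_image] at hef
    obtain ⟨⟨⟨q, hq, rfl⟩, ⟨q', hq', rfl⟩⟩, hlt, hcr⟩ := hef
    unfold EL at hq hq'
    rw [mem_filter] at hq hq'
    refine ⟨(q, q'), ?_, rfl⟩
    simp only [mem_coe, mem_filter, mem_product]
    refine ⟨⟨hq.1, hq'.1⟩, ?_, hq.2.2.2, hq'.2.2.2, cr_toSeg hcr⟩
    rintro rfl
    exact lt_irrefl _ hlt
  have h3 := cross_window hP W hW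
  have h4 := low_le hP K
  have h5 : ((Pool.Agent.TH124.KE.crs F).card : ℝ) ≤
      (W.card : ℝ) ^ 2 * (2 * (3 * n * (K + 1))) := by
    have h6 : ((Pool.Agent.TH124.KE.crs F).card : ℝ) ≤
      (W.card : ℝ) ^ 2 * (2 * (((T P).filter (fun q => lev P q ≤ K)).card : ℝ)) := by
      exact_mod_cast h2.trans h3
    refine h6.trans ?_
    gcongr
  have h7 : ((s : ℝ) * t) * (EL P S S' W).card ≤ 3 * ((s : ℝ) * t) * (t * S'.card + s * S.card) +
      ((Pool.Agent.TH124.KE.crs F).card : ℝ) := by exact_mod_cast h1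
  linarith

/-- **Pairs between two sets of points with level in a set of levels.** -/
theorem local_bound (hP : GP P) (S S' : Finset (Fin n)) (W : Finset ℕ) {K : ℕ}
    (hW : ∀ k ∈ W, k < K) :
    ((EL P S S' W).card : ℝ) ≤ 3 * (S.card + S'.card) +
      13 * ((S.card : ℝ) * S'.card * n * K * (W.card : ℝ) ^ 2) ^ (1 / 3 : ℝ) := by
  classical
  have hrhs : 0 ≤ 3 * ((S.card : ℝ) + S'.card) +
      13 * ((S.card : ℝ) * S'.card * n * K * (W.card : ℝ) ^ 2) ^ (1 / 3 : ℝ) := by positivity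
  rcases (EL P S S' W).eq_empty_or_nonempty with h0 | ⟨q, hq⟩
  · rw [h0, card_empty, Nat.cast_zero]; exact hrhs
  unfold EL at hq
  rw [mem_filter] at hq
  have ha : (1 : ℝ) ≤ S'.card := by exact_mod_cast card_pos.2 ⟨_, hq.2.2.1⟩
  have hb : (1 : ℝ) ≤ S.card := by exact_mod_cast card_pos.2 ⟨_, hq.2.1⟩
  have hw : (1 : ℝ) ≤ W.card := by exact_mod_cast card_pos.2 ⟨_, hq.2.2.2⟩
  have hn : (1 : ℝ) ≤ n := by
    have := q.1.2
    exact_mod_cast (by omega : 1 ≤ n)
  have hK1 : 1 ≤ K := by have := hW _ hq.2.2.2; omega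
  have hK : (1 : ℝ) ≤ K := by exact_mod_cast hK1
  set a : ℝ := (S'.card : ℝ) with hadef
  set b : ℝ := (S.card : ℝ) with hbdef
  set w : ℝ := (W.card : ℝ) with hwdef
  obtain ⟨Y, hY⟩ : ∃ Y : ℝ, Y = b * a * n * K * w ^ 2 := ⟨_, rfl⟩
  have hY0 : 0 < Y := by rw [hY]; positivity
  obtain ⟨z, hz⟩ : ∃ z : ℝ, z = (6 * Y) ^ (1 / 3 : ℝ) := ⟨_, rfl⟩
  have hz0 : 0 < z := by rw [hz]; positivity
  have hz3 : z ^ 3 = 6 * Y := by
    rw [hz, ← Real.rpow_natCast, ← Real.rpow_mul (by positivity)]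
    norm_num
  set s := ⌈z / b⌉₊ with hs
  set t := ⌈z / a⌉₊ with ht
  have hs0 : 0 < s := Nat.ceil_pos.mpr (by positivity)
  have ht0 : 0 < t := Nat.ceil_pos.mpr (by positivity)
  have hs1 : z / b ≤ s := Nat.le_ceil _
  have ht1 : z / a ≤ t := Nat.le_ceil _
  have hs2 : (s : ℝ) * b ≤ z + b := by
    have h := (Nat.ceil_lt_add_one (by positivity : 0 ≤ z / b)).le
    calc (s : ℝ) * b ≤ (z / b + 1) * b := by gcongr
      _ = z + b := by field_simp
  have ht2 : (t : ℝ) * a ≤ z + a := by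
    have h := (Nat.ceil_lt_add_one (by positivity : 0 ≤ z / a)).le
    calc (t : ℝ) * a ≤ (z / a + 1) * a := by gcongr
      _ = z + a := by field_simp
  have h := local_s hP S S' W (K := K - 1) (fun k hk => by have := hW k hk; omega) s t hs0 ht0
  have hKc : ((K - 1 : ℕ) : ℝ) + 1 = K := by
    rw [Nat.cast_sub hK1]; push_cast; ring
  rw [hKc] at h
  have hsr : (0 : ℝ) < s := by exact_mod_cast hs0
  have htr : (0 : ℝ) < t := by exact_mod_cast ht0
  have hst : z / b * (z / a) ≤ s * t := mul_le_mul hs1 ht1 (by positivity) hsr.le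
  have hX : w ^ 2 * (2 * (3 * n * K)) ≤ ((s : ℝ) * t) * z := by
    have e1 : w ^ 2 * (2 * (3 * n * K)) = z / b * (z / a) * z := by
      have e2 : z / b * (z / a) * z = z ^ 3 / (b * a) := by field_simp
      rw [e2, hz3, hY]
      field_simp
      ring
    rw [e1]
    gcongr
  have h1 : ((s : ℝ) * t) * (EL P S S' W).card ≤ ((s : ℝ) * t) * (3 * (a + b) + 7 * z) := by
    calc ((s : ℝ) * t) * (EL P S S' W).card ≤
          3 * ((s : ℝ) * t) * (t * a + s * b) + w ^ 2 * (2 * (3 * n * K)) := h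
      _ ≤ 3 * ((s : ℝ) * t) * ((z + a) + (z + b)) + ((s : ℝ) * t) * z := by gcongr
      _ = _ := by ring
  have h2 := le_of_mul_le_mul_left h1 (by positivity)
  have h3 : 7 * z ≤ 13 * Y ^ (1 / 3 : ℝ) := by
    rw [hz, Real.mul_rpow (by norm_num) hY0.le]
    have h4 : (6 : ℝ) ^ (1 / 3 : ℝ) ≤ 13 / 7 := by
      have : ((6 : ℝ) ^ (1 / 3 : ℝ)) ^ 3 ≤ (13 / 7 : ℝ) ^ 3 := by
        rw [← Real.rpow_natCast, ← Real.rpow_mul (by norm_num)]
        norm_num
      exact le_of_pow_le_pow_left₀ (by norm_num) (by norm_num) this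
    have h5 : 0 ≤ Y ^ (1 / 3 : ℝ) := by positivity
    nlinarith
  rw [← hY]
  linarith

/-- the ordered pairs of a line of `S` and a non-parallel line of `S'` such that the number of the
lines strictly below their common point is in `W` -/
def meets (a B : Fin n → ℝ) (S S' : Finset (Fin n)) (W : Finset ℕ) : Set (Fin n × Fin n) :=
  {q | q.1 ∈ S ∧ q.2 ∈ S' ∧ a q.1 ≠ a q.2 ∧
    {l | ht a B l (cr a B q.1 q.2) < ht a B q.1 (cr a B q.1 q.2)}.ncard ∈ W}

theorem lines_bound {a B : Fin n → ℝ} (hS : Simple a B) (S S' : Finset (Fin n)) (W : Finset ℕ)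
    {K : ℕ} (hW : ∀ k ∈ W, k < K) :
    ((meets a B S S' W).ncard : ℝ) ≤ 6 * (S.card + S'.card) +
      26 * ((S.card : ℝ) * S'.card * n * K * (W.card : ℝ) ^ 2) ^ (1 / 3 : ℝ) := by
  classical
  obtain ⟨P, hGP, hP⟩ := exists_GP hS
  have key : ∀ i j, a j < a i →
      {l | ht a B l (cr a B i j) < ht a B i (cr a B i j)}.ncard = lev P (i, j) := by
    intro i j hij
    rw [lev_eq, ← Set.ncard_coe_finset]
    congr 1
    ext l
    simp only [lowSet, coe_filter, mem_univ, true_and, Set.mem_ofPred_eq]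
    exact ((hP i j hij).2 l).symm
  have h1 : (meets a B S S' W).ncard ≤ (EL P S S' W).card + (EL P S' S W).card := by
    have hsub : meets a B S S' W ⊆
        ((EL P S S' W ∪ (EL P S' S W).image Prod.swap : Finset _) : Set (Fin n × Fin n)) := by
      rintro ⟨i, j⟩ ⟨hi, hj, hne, hw⟩
      simp only at hi hj hne hw
      rw [coe_union]
      rcases lt_or_gt_of_ne hne with h | h
      · right
        rw [mem_coe, mem_image]
        refine ⟨(j, i), ?_, rfl⟩
        unfold EL
        rw [mem_filter, mem_T]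
        refine ⟨(hP j i h).1, hj, hi, ?_⟩
        rw [← key j i h]
        have h4 := ht_cr (a := a) (B := B) hne
        rw [← h4, cr_symm] at hw
        exact hw
      · left
        unfold EL
        rw [mem_coe, mem_filter, mem_T]
        exact ⟨(hP i j h).1, hi, hj, by rw [← key i j h]; exact hw⟩
    calc (meets a B S S' W).ncard ≤ (((EL P S S' W ∪ (EL P S' S W).image Prod.swap :
          Finset _) : Set (Fin n × Fin n))).ncard := Set.ncard_le_ncard hsub (Finset.finite_toSet _)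
      _ = (EL P S S' W ∪ (EL P S' S W).image Prod.swap).card := Set.ncard_coe_finset _
      _ ≤ (EL P S S' W).card + ((EL P S' S W).image Prod.swap).card := card_union_le _ _
      _ ≤ _ := Nat.add_le_add_left card_image_le _
  have h2 := local_bound hGP S S' W hW
  have h3 := local_bound hGP S' S W hW
  have e : (S'.card : ℝ) * S.card * n * K * (W.card : ℝ) ^ 2 =
      (S.card : ℝ) * S'.card * n * K * (W.card : ℝ) ^ 2 := by ring
  rw [e] at h3
  have h4 : ((meets a B S S' W).ncard : ℝ) ≤ (EL P S S' W).card + (EL P S' S W).card := by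
    exact_mod_cast h1
  linarith

end Pool.Agent.X65.KL
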