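import Pool.Agent.Y344.KD.Final

/-! Means of order less than three of the complexities of the levels. -/

set_option autoImplicit false

namespace Pool.Agent.X65.KL

open Finset Pool.Agent.H189R2.Lev Pool.Agent.H189R2.Iid Pool.Agent.Y344.KD

open Pool.Agent.Results.MP_a08d0a_co.SmoothedLevel (Simple crossings psi psi_le)

/-- sums of powers -/
theorem sum_rpow_le {a : ℝ} (ha0 : 0 < a) (ha1 : a ≤ 1) (K : ℕ) :
    ∑ j ∈ range K, ((j : ℝ) + 1) ^ (a - 1) ≤ (K : ℝ) ^ a / a := by
  induction K with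
  | zero => simp [Real.zero_rpow ha0.ne']
  | succ K ih =>
    rw [sum_range_succ]
    have hK : (0 : ℝ) < (K : ℝ) + 1 := by positivity
    have h1 : ((K : ℝ) / (K + 1)) ^ a ≤ 1 - a / (K + 1) := by
      have h2 := rpow_one_add_le_one_add_mul_self (s := -(1 / ((K : ℝ) + 1))) (p := a) (by
        rw [neg_le_neg_iff, div_le_one hK]
        have : (0 : ℝ) ≤ K := Nat.cast_nonneg K
        linarith) ha0.le ha1
      have e : 1 + -(1 / ((K : ℝ) + 1)) = (K : ℝ) / (K + 1) := by field_simp; ring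
      rw [e] at h2
      refine h2.trans (le_of_eq ?_)
      ring
    have h3 : (K : ℝ) ^ a ≤ ((K : ℝ) + 1) ^ a - a * ((K : ℝ) + 1) ^ (a - 1) := by
      rw [Real.div_rpow (Nat.cast_nonneg K) hK.le] at h1
      have h4 : 0 < ((K : ℝ) + 1) ^ a := Real.rpow_pos_of_pos hK _
      rw [div_le_iff₀ h4] at h1
      refine h1.trans (le_of_eq ?_)
      rw [Real.rpow_sub hK, Real.rpow_one]
      field_simp
    have h5 : (K : ℝ) ^ a / a + ((K : ℝ) + 1) ^ (a - 1) ≤ ((K : ℝ) + 1) ^ a / a := by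
      rw [div_add' _ _ _ ha0.ne', div_le_div_iff_of_pos_right ha0]
      linarith
    push_cast
    linarith

/-- from the sums over sets to the means of order less than three -/
theorem moments {K : ℕ} {x : Fin K → ℝ} (hx : ∀ k, 0 ≤ x k)
    (h : ∀ W : Finset (Fin K), ∑ k ∈ W, x k ≤ (K : ℝ) ^ (1 / 3 : ℝ) * (W.card : ℝ) ^ (2 / 3 : ℝ))
    {p : ℝ} (hp0 : 0 < p) (hp : p < 3) : ∑ k, x k ^ p ≤ 3 / (3 - p) * K := by
  set σ := Tuple.sort (fun k => - x k) with hσ
  have hmono : Monotone ((fun k => - x k) ∘ σ) := Tuple.monotone_sort _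
  have hanti : ∀ i j, i ≤ j → x (σ j) ≤ x (σ i) := by
    intro i j hij
    have := hmono hij
    simp only [Function.comp] at this
    linarith
  have h1 : ∀ j : Fin K, x (σ j) ≤ ((K : ℝ) / ((j : ℕ) + 1)) ^ (1 / 3 : ℝ) := by
    intro j
    have h2 := h ((Iic j).map σ.toEmbedding)
    rw [card_map, sum_map, Fin.card_Iic] at h2
    have h3 : (((j : ℕ) : ℝ) + 1) * x (σ j) ≤ ∑ i ∈ Iic j, x (σ.toEmbedding i) := by
      calc (((j : ℕ) : ℝ) + 1) * x (σ j) = ∑ _i ∈ Iic j, x (σ j) := by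
            rw [sum_const, Fin.card_Iic, nsmul_eq_mul]; push_cast; ring
        _ ≤ _ := sum_le_sum fun i hi => hanti i j (mem_Iic.1 hi)
    have h4 := h3.trans h2
    push_cast at h4
    have hj : (0 : ℝ) < ((j : ℕ) : ℝ) + 1 := by positivity
    rw [Real.div_rpow (Nat.cast_nonneg K) hj.le, le_div_iff₀ (Real.rpow_pos_of_pos hj _)]
    have e : (((j : ℕ) : ℝ) + 1) = (((j : ℕ) : ℝ) + 1) ^ (1 / 3 : ℝ) *
        (((j : ℕ) : ℝ) + 1) ^ (2 / 3 : ℝ) := by
      rw [← Real.rpow_add hj]; norm_num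
    have h5 : x (σ j) * (((j : ℕ) : ℝ) + 1) ^ (1 / 3 : ℝ) * (((j : ℕ) : ℝ) + 1) ^ (2 / 3 : ℝ) ≤
        (K : ℝ) ^ (1 / 3 : ℝ) * (((j : ℕ) : ℝ) + 1) ^ (2 / 3 : ℝ) := by
      refine le_trans (le_of_eq ?_) h4
      rw [mul_assoc, ← e, mul_comm]
    exact le_of_mul_le_mul_right h5 (Real.rpow_pos_of_pos hj _)
  have ha0 : (0 : ℝ) < 1 - p / 3 := by linarith
  have ha1 : (1 : ℝ) - p / 3 ≤ 1 := by linarith
  calc ∑ k, x k ^ p = ∑ j, x (σ j) ^ p := (Equiv.sum_comp σ fun k => x k ^ p).symm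
    _ ≤ ∑ j : Fin K, (K : ℝ) ^ (p / 3) * (((j : ℕ) : ℝ) + 1) ^ ((1 - p / 3) - 1) := by
        apply sum_le_sum
        intro j _
        have hj : (0 : ℝ) < ((j : ℕ) : ℝ) + 1 := by positivity
        calc x (σ j) ^ p ≤ (((K : ℝ) / ((j : ℕ) + 1)) ^ (1 / 3 : ℝ)) ^ p :=
              Real.rpow_le_rpow (hx _) (h1 j) hp0.le
          _ = ((K : ℝ) / ((j : ℕ) + 1)) ^ (p / 3) := by
              rw [← Real.rpow_mul (by positivity)]; congr 1; ring
          _ = _ := by
              rw [Real.div_rpow (Nat.cast_nonneg K) hj.le, div_eq_mul_inv, ← Real.rpow_neg hj.le]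
              congr 2; ring
    _ = (K : ℝ) ^ (p / 3) * ∑ j ∈ range K, ((j : ℝ) + 1) ^ ((1 - p / 3) - 1) := by
        rw [← mul_sum, ← Fin.sum_univ_eq_sum_range (fun j => ((j : ℝ) + 1) ^ ((1 - p / 3) - 1))]
    _ ≤ (K : ℝ) ^ (p / 3) * ((K : ℝ) ^ (1 - p / 3) / (1 - p / 3)) := by
        gcongr
        exact sum_rpow_le ha0 ha1 K
    _ ≤ 3 / (3 - p) * K := by
        rcases Nat.eq_zero_or_pos K with hK | hK
        · subst hK
          simp [Real.zero_rpow ha0.ne']
        · have hK' : (0 : ℝ) < K := by exact_mod_cast hK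
          rw [← mul_div_assoc, ← Real.rpow_add hK', add_sub_cancel, Real.rpow_one]
          have : (3 : ℝ) - p ≠ 0 := by linarith
          have h6 : (1 : ℝ) - p / 3 ≠ 0 := ha0.ne'
          apply le_of_eq
          rw [div_eq_iff h6]
          field_simp

variable {n : ℕ}

theorem crossings_le {a B : Fin n → ℝ} {P : Fin n → ℝ × ℝ}
    (hP : ∀ i j, a j < a i → (P j).1 < (P i).1 ∧ ∀ l, (P l ∈ low (P i) (P j) ↔
      ht a B l (cr a B i j) < ht a B i (cr a B i j))) (k : ℕ) :
    (crossings a B k).ncard ≤ (EW P {k}).card := by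
  classical
  have key : ∀ i j, a j < a i →
      {l | ht a B l (cr a B i j) < ht a B i (cr a B i j)}.ncard = lev P (i, j) := by
    intro i j hij
    rw [lev_eq, ← Set.ncard_coe_finset]
    congr 1
    ext l
    simp only [lowSet, coe_filter, mem_univ, true_and, Set.mem_ofPred_eq]
    exact ((hP i j hij).2 l).symm
  rw [← Set.ncard_coe_finset (EW P {k})]
  apply Set.ncard_le_ncard_of_injOn (fun q : Fin n × Fin n =>
    if a q.2 < a q.1 then (q.1, q.2) else (q.2, q.1))
  · rintro ⟨i, j⟩ ⟨h1, h2, h3⟩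
    simp only at h1 h2 h3
    unfold EW
    rw [mem_coe, mem_filter, mem_T, mem_singleton]
    simp only
    by_cases h : a j < a i
    · rw [if_pos h]
      exact ⟨(hP _ _ h).1, by rw [← key i j h]; exact h3⟩
    · rw [if_neg h]
      have h' : a i < a j := lt_of_le_of_ne (not_lt.mp h) h2
      refine ⟨(hP _ _ h').1, ?_⟩
      rw [← key j i h']
      have h4 := ht_cr (a := a) (B := B) h2
      rw [← h4, cr_symm] at h3
      exact h3
  · rintro ⟨i, j⟩ ⟨h1, h2, _⟩ ⟨i', j'⟩ ⟨h1', h2', _⟩ heq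
    simp only at h1 h2 h1' h2' heq
    split_ifs at heq with h h' h'
    · exact heq
    · rw [Prod.mk.injEq] at heq
      rw [heq.1, heq.2] at h1
      exact absurd h1 (lt_asymm h1')
    · rw [Prod.mk.injEq] at heq
      rw [heq.1, heq.2] at h1
      exact absurd h1 (lt_asymm h1')
    · rw [Prod.mk.injEq] at heq
      rw [heq.1, heq.2]

theorem means {a B : Fin n → ℝ} (hS : Simple a B) {K : ℕ} (hK : K ≤ n) {p : ℝ} (hp0 : 0 < p)
    (hp : p < 3) : (∀ k < K, psi a B k ≠ ⊤) ∧
    ∑ k ∈ range K, ((psi a B k).toNat : ℝ) ^ p ≤ 3 / (3 - p) * K * (36 * n) ^ p := by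
  classical
  obtain ⟨P, hGP, hP⟩ := exists_GP hS
  obtain ⟨f, hf⟩ : ∃ f : ℕ → ℝ, f = fun k => if k = 0 then 0 else Pool.Agent.Y344.KD.ee P (k - 1) :=
    ⟨_, rfl⟩
  have hle : ∀ k < K, psi a B k ≠ ⊤ ∧
      ((psi a B k).toNat : ℝ) ≤ Pool.Agent.Y344.KD.ee P k + f k := by
    intro k hk
    have h1 := psi_le hS (by omega : k < n)
    have h2 : psi a B k ≤ ((EW P {k}).card + (if k = 0 then 0 else (EW P {k - 1}).card) : ℕ) := by
      refine h1.trans ?_
      apply Nat.cast_le.mpr
      apply Nat.add_le_add (crossings_le hP k)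
      split_ifs
      · exact le_rfl
      · exact crossings_le hP (k - 1)
    obtain ⟨h3, h4⟩ := toNat_le h2
    refine ⟨h3, ?_⟩
    have h5 : ((psi a B k).toNat : ℝ) ≤
        ((EW P {k}).card + (if k = 0 then 0 else (EW P {k - 1}).card) : ℕ) := by exact_mod_cast h4
    refine h5.trans (le_of_eq ?_)
    rw [hf]
    unfold Pool.Agent.Y344.KD.ee
    by_cases h0 : k = 0
    · simp [h0]
    · simp [h0]
  refine ⟨fun k hk => (hle k hk).1, ?_⟩
  rcases Nat.eq_zero_or_pos n with hn | hn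
  · have : K = 0 := by omega
    subst this
    simp
  have hn' : (0 : ℝ) < n := by exact_mod_cast hn
  have hsumW : ∀ (W : Finset ℕ), (∀ k ∈ W, k < K) → ∑ k ∈ W, Pool.Agent.Y344.KD.ee P k ≤
      18 * n * ((K : ℝ) ^ (1 / 3 : ℝ) * (W.card : ℝ) ^ (2 / 3 : ℝ)) := by
    intro W hW
    rcases Nat.eq_zero_or_pos K with hK0 | hK0
    · have : W = ∅ := by
        apply eq_empty_of_forall_notMem
        intro k hk
        have := hW k hk
        omega
      rw [this, sum_empty]
      positivity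
    rw [sum_ee]
    have h := window hGP W (K := K - 1) (fun k hk => by have := hW k hk; omega)
    have e : (((K - 1 : ℕ) : ℝ) + 1) = K := by
      have : K - 1 + 1 = K := Nat.sub_add_cancel hK0
      exact_mod_cast this
    rwa [e] at h
  have hmom := moments (K := K) (x := fun k => ((psi a B k).toNat : ℝ) / (36 * n))
    (fun k => by positivity) (by
      intro W
      rw [← sum_div, div_le_iff₀ (by positivity)]
      obtain ⟨V, hV⟩ : ∃ V : Finset ℕ, V = W.map Fin.valEmbedding := ⟨_, rfl⟩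
      have hVK : ∀ k ∈ V, k < K := by
        intro k hk
        rw [hV, mem_map] at hk
        obtain ⟨i, _, rfl⟩ := hk
        exact i.2
      have hVc : V.card = W.card := by rw [hV, card_map]
      have h1 : ∑ k ∈ W, ((psi a B k).toNat : ℝ) ≤
          ∑ k ∈ V, Pool.Agent.Y344.KD.ee P k + ∑ k ∈ V, f k := by
        rw [hV, sum_map, sum_map, ← sum_add_distrib]
        exact sum_le_sum fun k _ => (hle k k.2).2
      have h2 := hsumW V hVK
      have h3 : ∑ k ∈ V, f k ≤
          18 * n * ((K : ℝ) ^ (1 / 3 : ℝ) * (W.card : ℝ) ^ (2 / 3 : ℝ)) := by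
        have e1 : ∑ k ∈ V, f k = ∑ k ∈ V.filter (fun k => k ≠ 0),
            Pool.Agent.Y344.KD.ee P (k - 1) := by
          rw [sum_filter]
          apply sum_congr rfl
          intro k _
          rw [hf]
          by_cases h0 : k = 0 <;> simp [h0]
        have e2 : ∑ k ∈ V.filter (fun k => k ≠ 0), Pool.Agent.Y344.KD.ee P (k - 1) =
            ∑ k ∈ (V.filter (fun k => k ≠ 0)).image (fun k => k - 1),
              Pool.Agent.Y344.KD.ee P k := by
          rw [sum_image]
          intro k hk k' hk' h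
          have a1 := (mem_filter.1 (mem_coe.1 hk)).2
          have a2 := (mem_filter.1 (mem_coe.1 hk')).2
          simp only at h
          omega
        rw [e1, e2]
        refine (hsumW _ ?_).trans ?_
        · intro k hk
          rw [mem_image] at hk
          obtain ⟨j, hj, rfl⟩ := hk
          have := hVK j (mem_filter.1 hj).1
          omega
        · have hc : ((V.filter (fun k => k ≠ 0)).image (fun k => k - 1)).card ≤ W.card := by
            rw [← hVc]
            exact card_image_le.trans (card_filter_le _ _)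
          have hc' : (((V.filter (fun k => k ≠ 0)).image (fun k => k - 1)).card : ℝ) ≤ W.card := by
            exact_mod_cast hc
          gcongr
      rw [hVc] at h2
      linarith) hp0 hp
  have e : ∑ k ∈ range K, ((psi a B k).toNat : ℝ) ^ p =
      (36 * n) ^ p * ∑ k : Fin K, (((psi a B k).toNat : ℝ) / (36 * n)) ^ p := by
    rw [mul_sum, Fin.sum_univ_eq_sum_range
      (fun k => (36 * (n : ℝ)) ^ p * (((psi a B k).toNat : ℝ) / (36 * n)) ^ p)]
    apply sum_congr rfl
    intro k _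
    rw [← Real.mul_rpow (by positivity) (by positivity)]
    congr 1
    field_simp
  rw [e]
  calc (36 * (n : ℝ)) ^ p * ∑ k : Fin K, (((psi a B k).toNat : ℝ) / (36 * n)) ^ p ≤
        (36 * (n : ℝ)) ^ p * (3 / (3 - p) * K) := by gcongr
    _ = _ := by ring

end Pool.Agent.X65.KL
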